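import Mathlib

/-!
# MP_2335a4_an, Q1: the curse of dimensionality for non-negative quadrature, `p = 1`

For non-negative weights the worst-case error on the unit ball of `F_{d,∞}` equals the generalized
`L_1`-discrepancy, and it is at least `2^{-d} (1 - N (13/14)^d)`.
-/

open MeasureTheory Set Filter

namespace Pool.Agent.Results.MP_2335a4_an.NonnegCurse

/-- The generalized `L_1`-discrepancy
`∫_{[0,1]^d} |∑_k a_k 1_{[0,x)}(t_k) - x_1 ⋯ x_d| dx`,
which is the worst-case error `e(A)` of the formula `A(f) = ∑_k a_k f(t_k)`. -/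
noncomputable def err {d N : ℕ} (a : Fin N → ℝ) (t : Fin N → Fin d → ℝ) : ℝ :=
  ∫ x in Icc (0 : Fin d → ℝ) 1,
    |(∑ k, Set.indicator {x : Fin d → ℝ | ∀ i, t k i < x i} (fun _ => a k) x) - ∏ i, x i|

/-- `e^+(N,d)`: the infimum of the worst-case errors of the non-negative quadrature formulas with
`N` nodes in `[0,1)^d`. -/
noncomputable def ePlus (N d : ℕ) : ℝ :=
  ⨅ A : {A : (Fin N → ℝ) × (Fin N → Fin d → ℝ) //
    (∀ k, 0 ≤ A.1 k) ∧ ∀ k i, A.2 k i ∈ Ico (0 : ℝ) 1}, err A.1.1 A.1.2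

/-- `N^+(ε,d) = min {N : e^+(N,d) ≤ ε 2^{-d}}` (it is `⊤` if there is no such `N`). -/
noncomputable def NPlus (ε : ℝ) (d : ℕ) : ℕ∞ :=
  ⨅ (N : ℕ) (_ : ePlus N d ≤ ε * (1 / 2) ^ d), (N : ℕ∞)

/-- The curse of dimensionality: there are `ε > 0` and `C > 1` with `N^+(ε,d) ≥ C^d` for
infinitely many `d`. -/
def SuffersFromCurse : Prop :=
  ∃ ε C : ℝ, 0 < ε ∧ 1 < C ∧ ∃ᶠ d : ℕ in atTop, ENNReal.ofReal (C ^ d) ≤ (NPlus ε d : ENNReal)

lemma vol_eq (d : ℕ) : (volume : Measure (Fin d → ℝ)).restrict (Icc 0 1) =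
    Measure.pi (fun _ : Fin d => (volume : Measure ℝ).restrict (Icc 0 1)) := by
  rw [← Measure.restrict_pi_pi, volume_pi]
  congr 1
  rw [← Set.pi_univ_Icc]
  rfl

lemma finite_vol (d : ℕ) : IsFiniteMeasure ((volume : Measure (Fin d → ℝ)).restrict (Icc 0 1)) := by
  refine ⟨?_⟩
  rw [Measure.restrict_apply MeasurableSet.univ, univ_inter]
  exact isCompact_Icc.measure_lt_top

/-- the box indicator -/
noncomputable def ind {d : ℕ} (t x : Fin d → ℝ) : ℝ :=
  ∏ i, (Ioi (t i)).indicator (fun _ => (1 : ℝ)) (x i)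

lemma ind_eq {d : ℕ} (t x : Fin d → ℝ) (a : ℝ) :
    Set.indicator {x : Fin d → ℝ | ∀ i, t i < x i} (fun _ => a) x = a * ind t x := by
  unfold ind
  by_cases h : ∀ i, t i < x i
  · rw [Set.indicator_of_mem (by exact h), Finset.prod_eq_one, mul_one]
    intro i _
    rw [Set.indicator_of_mem (by exact h i)]
  · rw [Set.indicator_of_notMem (by exact h)]
    push Not at h
    obtain ⟨i, hi⟩ := h
    rw [Finset.prod_eq_zero (Finset.mem_univ i), mul_zero]
    rw [Set.indicator_of_notMem]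
    simpa using hi

lemma ind_nonneg {d : ℕ} (t x : Fin d → ℝ) : 0 ≤ ind t x :=
  Finset.prod_nonneg fun i _ => Set.indicator_nonneg (fun _ _ => zero_le_one) _

lemma ind_le_one {d : ℕ} (t x : Fin d → ℝ) : ind t x ≤ 1 :=
  Finset.prod_le_one (fun i _ => Set.indicator_nonneg (fun _ _ => zero_le_one) _) fun _ _ => by
    rw [Set.indicator_apply]; split_ifs <;> norm_num

lemma ind_sq {d : ℕ} (t x : Fin d → ℝ) : ind t x = 0 ∨ ind t x = 1 := by
  have h := ind_eq t x 1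
  rw [one_mul] at h
  rw [← h, Set.indicator_apply]
  split_ifs
  · right; rfl
  · left; rfl

lemma ind_meas {d : ℕ} (t : Fin d → ℝ) : Measurable (ind t) := by
  unfold ind
  exact Finset.measurable_prod _ fun i _ =>
    (measurable_const.indicator measurableSet_Ioi).comp (measurable_pi_apply i)

lemma integral_one_factor {t : ℝ} (ht : t ∈ Ico (0 : ℝ) 1) {s : ℝ} (hs : 0 ≤ s) :
    ∫ y in Icc (0 : ℝ) 1, (Ioi t).indicator (fun _ => (1 : ℝ)) y * y ^ s
      = (1 - t ^ (s + 1)) / (s + 1) := by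
  have h1 : ∀ y : ℝ, (Ioi t).indicator (fun _ => (1 : ℝ)) y * y ^ s
      = (Ioi t).indicator (fun y => y ^ s) y := by
    intro y
    rw [Set.indicator_apply, Set.indicator_apply]
    split_ifs <;> simp
  simp_rw [h1]
  rw [integral_indicator measurableSet_Ioi, Measure.restrict_restrict measurableSet_Ioi]
  have h2 : Ioi t ∩ Icc 0 1 = Ioc t 1 := by
    ext y
    simp only [mem_inter_iff, mem_Ioi, mem_Icc, mem_Ioc]
    constructor
    · rintro ⟨h1, h2, h3⟩; exact ⟨h1, h3⟩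
    · rintro ⟨h1, h2⟩; exact ⟨h1, by linarith [ht.1], h2⟩
  rw [h2, ← intervalIntegral.integral_of_le ht.2.le, integral_rpow (Or.inl (by linarith))]
  rw [Real.one_rpow]

lemma integral_ind_rpow {d : ℕ} (t : Fin d → ℝ) (ht : ∀ i, t i ∈ Ico (0 : ℝ) 1) {s : ℝ}
    (hs : 0 ≤ s) :
    ∫ x in Icc (0 : Fin d → ℝ) 1, ind t x * ∏ i, (x i) ^ s
      = ∏ i, ((1 - (t i) ^ (s + 1)) / (s + 1)) := by
  unfold ind
  simp_rw [← Finset.prod_mul_distrib]
  rw [vol_eq, integral_fintype_prod_eq_prod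
    (fun (i : Fin d) (y : ℝ) => (Ioi (t i)).indicator (fun _ => (1 : ℝ)) y * y ^ s)]
  exact Finset.prod_congr rfl fun i _ => integral_one_factor (ht i) hs

lemma integral_prod_rpow {s : ℝ} (hs : 0 ≤ s) (d : ℕ) :
    ∫ t in Icc (0 : Fin d → ℝ) 1, ∏ i, (t i) ^ s = (1 / (1 + s)) ^ d := by
  rw [vol_eq, integral_fintype_prod_eq_prod (fun _ : Fin d => fun y : ℝ => y ^ s)]
  have : ∫ y in Icc (0 : ℝ) 1, y ^ s = 1 / (1 + s) := by
    rw [integral_Icc_eq_integral_Ioc, ← intervalIntegral.integral_of_le zero_le_one,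
      integral_rpow (Or.inl (by linarith))]
    rw [Real.one_rpow, Real.zero_rpow (by linarith)]
    simp [add_comm]
  simp [this]

lemma integral_prod (d : ℕ) :
    ∫ t in Icc (0 : Fin d → ℝ) 1, ∏ i, t i = (1 / 2) ^ d := by
  have h := integral_prod_rpow (s := 1) zero_le_one d
  norm_num at h
  simpa using h

lemma prod_mem {d : ℕ} {t : Fin d → ℝ} (ht : t ∈ Icc (0 : Fin d → ℝ) 1) :
    0 ≤ ∏ i, t i ∧ ∏ i, t i ≤ 1 :=
  ⟨Finset.prod_nonneg fun i _ => ht.1 i, Finset.prod_le_one (fun i _ => ht.1 i) fun i _ => ht.2 i⟩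

/-- the one-dimensional inequality behind the rate `14/13` -/
lemma factor_le {t : ℝ} (ht : t ∈ Ico (0 : ℝ) 1) :
    ((1 - t ^ ((1 / 2 : ℝ) + 1)) / ((1 / 2 : ℝ) + 1)) ^ 2 ≤ (13 / 28) * (1 - t) := by
  set u := Real.sqrt t with hu
  have hu0 : 0 ≤ u := Real.sqrt_nonneg _
  have hut : t = u ^ 2 := (Real.sq_sqrt ht.1).symm
  have hu1 : u ≤ 1 := by
    rw [hu, Real.sqrt_le_one]
    exact ht.2.le
  have hpow : t ^ ((1 / 2 : ℝ) + 1) = u ^ 3 := by
    rcases ht.1.lt_or_eq with h | h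
    · rw [Real.rpow_add h, Real.rpow_one, ← Real.sqrt_eq_rpow, ← hu]
      calc u * t = u * u ^ 2 := congrArg (fun z => u * z) hut
        _ = u ^ 3 := by ring
    · have : u = 0 := by rw [hu, ← h, Real.sqrt_zero]
      rw [← h, this, Real.zero_rpow (by norm_num)]
      norm_num
  rw [hpow, hut]
  have hP : 0 ≤ 5 + 5 * u - 112 * u ^ 2 + 112 * u ^ 3 + 112 * u ^ 4 + 112 * u ^ 5 := by
    have h1 : 0 ≤ (u - 365 / 1000) ^ 2 := sq_nonneg _
    have h2 : 0 ≤ u * (u - 365 / 1000) ^ 2 := by positivity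
    have h3 : 0 ≤ u ^ 2 * (u - 365 / 1000) ^ 2 := by positivity
    have h4 : 0 ≤ u ^ 3 * (u - 365 / 1000) ^ 2 := by positivity
    nlinarith
  have h5 : (13 / 28) * (1 - u ^ 2) - ((1 - u ^ 3) / ((1 / 2 : ℝ) + 1)) ^ 2
      = (1 / 252) * ((1 - u) *
        (5 + 5 * u - 112 * u ^ 2 + 112 * u ^ 3 + 112 * u ^ 4 + 112 * u ^ 5)) := by
    ring
  have h6 : 0 ≤ (1 / 252) * ((1 - u) *
        (5 + 5 * u - 112 * u ^ 2 + 112 * u ^ 3 + 112 * u ^ 4 + 112 * u ^ 5)) := by
    have : 0 ≤ 1 - u := by linarith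
    positivity
  linarith

/-- contribution of one node -/
lemma node_bound {d : ℕ} (t : Fin d → ℝ) (ht : ∀ i, t i ∈ Ico (0 : ℝ) 1) {s : ℝ} :
    -(((1 / 2) * (13 / 14)) ^ d) ≤ s ^ 2 * ∏ i, (1 - t i)
      - 2 * s * ∏ i, ((1 - (t i) ^ ((1 / 2 : ℝ) + 1)) / ((1 / 2 : ℝ) + 1)) := by
  set p := ∏ i, (1 - t i) with hp
  set r := ∏ i, ((1 - (t i) ^ ((1 / 2 : ℝ) + 1)) / ((1 / 2 : ℝ) + 1)) with hr
  set q : ℝ := ((1 / 2) * (13 / 14)) ^ d with hq
  have hp0 : 0 < p := Finset.prod_pos fun i _ => by linarith [(ht i).2]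
  have hrq : r ^ 2 ≤ q * p := by
    rw [hr, ← Finset.prod_pow]
    have : q * p = ∏ i, ((13 / 28) * (1 - t i)) := by
      rw [Finset.prod_mul_distrib, Finset.prod_const, Finset.card_univ, Fintype.card_fin, hq, hp]
      norm_num
    rw [this]
    exact Finset.prod_le_prod (fun i _ => sq_nonneg _) fun i _ => factor_le (ht i)
  have h1 : 0 ≤ p * (s ^ 2 * p - 2 * s * r + q) := by
    have : p * (s ^ 2 * p - 2 * s * r + q) = (s * p - r) ^ 2 + (q * p - r ^ 2) := by ring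
    rw [this]
    have := sq_nonneg (s * p - r)
    linarith
  have h2 : 0 ≤ s ^ 2 * p - 2 * s * r + q := by
    by_contra hcon
    push Not at hcon
    nlinarith
  linarith

/-- subadditivity of the square root over the nodes -/
lemma sqrt_sum_le {ι : Type*} (s : Finset ι) (f : ι → ℝ) (hf : ∀ i, 0 ≤ f i) :
    Real.sqrt (∑ i ∈ s, f i) ≤ ∑ i ∈ s, Real.sqrt (f i) := by
  classical
  induction s using Finset.induction_on with
  | empty => simp
  | insert a s ha ih =>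
    rw [Finset.sum_insert ha, Finset.sum_insert ha]
    have h1 : Real.sqrt (f a + ∑ i ∈ s, f i) ≤ Real.sqrt (f a) + Real.sqrt (∑ i ∈ s, f i) := by
      rw [Real.sqrt_le_left (by positivity), add_sq, Real.sq_sqrt (hf a),
        Real.sq_sqrt (Finset.sum_nonneg fun i _ => hf i)]
      have := mul_nonneg (Real.sqrt_nonneg (f a)) (Real.sqrt_nonneg (∑ i ∈ s, f i))
      linarith
    linarith

/-- The pointwise inequality. -/
lemma pointwise {d N : ℕ} (a : Fin N → ℝ) (ha : ∀ k, 0 ≤ a k) (t : Fin N → Fin d → ℝ)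
    {x : Fin d → ℝ} (hx : x ∈ Icc (0 : Fin d → ℝ) 1) :
    (∏ i, x i) + ∑ k, (a k * ind (t k) x
        - 2 * Real.sqrt (a k) * (ind (t k) x * ∏ i, (x i) ^ (1 / 2 : ℝ)))
      ≤ |(∑ k, a k * ind (t k) x) - ∏ i, x i| := by
  set S := ∑ k, a k * ind (t k) x with hS
  set V := ∏ i, x i with hV
  have hS0 : 0 ≤ S := Finset.sum_nonneg fun k _ => mul_nonneg (ha k) (ind_nonneg _ _)
  have hV0 : 0 ≤ V := (prod_mem hx).1
  have hVs : ∏ i, (x i) ^ (1 / 2 : ℝ) = Real.sqrt V := by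
    rw [Real.finsetProd_rpow _ _ (fun i _ => hx.1 i), Real.sqrt_eq_rpow]
  have hsq : S + V - 2 * (Real.sqrt S * Real.sqrt V) ≤ |S - V| := by
    have h1 := Real.sq_sqrt hS0
    have h2 := Real.sq_sqrt hV0
    have h3 := Real.sqrt_nonneg S
    have h4 := Real.sqrt_nonneg V
    rcases le_total (Real.sqrt S) (Real.sqrt V) with h | h
    · have h5 : V - S ≤ |S - V| := by
        rw [abs_sub_comm]; exact le_abs_self _
      nlinarith
    · have h5 : S - V ≤ |S - V| := le_abs_self _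
      nlinarith
  have hsub : Real.sqrt S ≤ ∑ k, Real.sqrt (a k) * ind (t k) x := by
    refine (sqrt_sum_le _ _ fun k => mul_nonneg (ha k) (ind_nonneg _ _)).trans (le_of_eq ?_)
    refine Finset.sum_congr rfl fun k _ => ?_
    rw [Real.sqrt_mul (ha k)]
    rcases ind_sq (t k) x with h | h <;> rw [h] <;> simp
  have h6 : Real.sqrt S * Real.sqrt V ≤ (∑ k, Real.sqrt (a k) * ind (t k) x) * Real.sqrt V :=
    mul_le_mul_of_nonneg_right hsub (Real.sqrt_nonneg _)
  have h7 : ∑ k, (a k * ind (t k) x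
        - 2 * Real.sqrt (a k) * (ind (t k) x * ∏ i, (x i) ^ (1 / 2 : ℝ)))
      = S - 2 * ((∑ k, Real.sqrt (a k) * ind (t k) x) * Real.sqrt V) := by
    rw [Finset.sum_sub_distrib, hVs, Finset.sum_mul, Finset.mul_sum]
    congr 1
    refine Finset.sum_congr rfl fun k _ => by ring
  rw [h7]
  linarith

lemma integrable_ind_rpow {d : ℕ} (t : Fin d → ℝ) {s : ℝ} (hs : 0 ≤ s) :
    IntegrableOn (fun x : Fin d → ℝ => ind t x * ∏ i, (x i) ^ s) (Icc (0 : Fin d → ℝ) 1) := by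
  have := finite_vol d
  refine Integrable.of_bound (C := 1) ?_ ?_
  · exact ((ind_meas t).mul (Finset.measurable_prod _ fun i _ =>
      (measurable_pi_apply i).pow_const s)).aestronglyMeasurable
  · refine (ae_restrict_mem measurableSet_Icc).mono fun x hx => ?_
    have h0 : 0 ≤ ∏ i, (x i) ^ s := Finset.prod_nonneg fun i _ => Real.rpow_nonneg (hx.1 i) _
    have h1 : ∏ i, (x i) ^ s ≤ 1 := Finset.prod_le_one (fun i _ => Real.rpow_nonneg (hx.1 i) _)
      fun i _ => Real.rpow_le_one (hx.1 i) (hx.2 i) hs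
    rw [Real.norm_eq_abs, abs_of_nonneg (mul_nonneg (ind_nonneg _ _) h0)]
    exact mul_le_one₀ (ind_le_one _ _) h0 h1

lemma integrable_ind {d : ℕ} (t : Fin d → ℝ) :
    IntegrableOn (fun x : Fin d → ℝ => ind t x) (Icc (0 : Fin d → ℝ) 1) := by
  have h := integrable_ind_rpow t (s := 0) le_rfl
  simpa using h

lemma integral_ind {d : ℕ} (t : Fin d → ℝ) (ht : ∀ i, t i ∈ Ico (0 : ℝ) 1) :
    ∫ x in Icc (0 : Fin d → ℝ) 1, ind t x = ∏ i, (1 - t i) := by
  have h := integral_ind_rpow t ht (s := 0) le_rfl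
  simpa using h

lemma integrable_prod {d : ℕ} :
    IntegrableOn (fun x : Fin d → ℝ => ∏ i, x i) (Icc (0 : Fin d → ℝ) 1) := by
  have := finite_vol d
  refine Integrable.of_bound (C := 1) ?_ ?_
  · exact (Finset.measurable_prod _ fun i _ => measurable_pi_apply i).aestronglyMeasurable
  · refine (ae_restrict_mem measurableSet_Icc).mono fun x hx => ?_
    rw [Real.norm_eq_abs, abs_of_nonneg (prod_mem hx).1]
    exact (prod_mem hx).2

/-- The lower bound for the worst-case error of every non-negative formula. -/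
theorem err_lower {d N : ℕ} (a : Fin N → ℝ) (ha : ∀ k, 0 ≤ a k) (t : Fin N → Fin d → ℝ)
    (ht : ∀ k i, t k i ∈ Ico (0 : ℝ) 1) :
    (1 / 2) ^ d * (1 - N * (13 / 14) ^ d) ≤ err a t := by
  unfold err
  simp_rw [ind_eq]
  have hint1 : IntegrableOn (fun x : Fin d → ℝ => ∑ k, (a k * ind (t k) x
        - 2 * Real.sqrt (a k) * (ind (t k) x * ∏ i, (x i) ^ (1 / 2 : ℝ))))
        (Icc (0 : Fin d → ℝ) 1) := by
    refine integrable_finsetSum _ fun k _ => ?_
    exact ((integrable_ind (t k)).const_mul _).sub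
      ((integrable_ind_rpow (t k) (by norm_num)).const_mul _)
  have hint2 : IntegrableOn (fun x : Fin d → ℝ =>
      |(∑ k, a k * ind (t k) x) - ∏ i, x i|) (Icc (0 : Fin d → ℝ) 1) := by
    refine Integrable.abs (Integrable.sub ?_ integrable_prod)
    exact integrable_finsetSum _ fun k _ => (integrable_ind (t k)).const_mul _
  calc (1 / 2 : ℝ) ^ d * (1 - N * (13 / 14) ^ d)
      = (1 / 2) ^ d + ∑ k : Fin N, -(((1 / 2 : ℝ) * (13 / 14)) ^ d) := by
        rw [Finset.sum_const, Finset.card_univ, Fintype.card_fin, nsmul_eq_mul, mul_pow]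
        ring
    _ ≤ (1 / 2) ^ d + ∑ k : Fin N, (a k * ∏ i, (1 - t k i)
          - 2 * Real.sqrt (a k) *
            ∏ i, ((1 - (t k i) ^ ((1 / 2 : ℝ) + 1)) / ((1 / 2 : ℝ) + 1))) := by
        have h0 : ∀ k : Fin N, -(((1 / 2 : ℝ) * (13 / 14)) ^ d) ≤ (a k * ∏ i, (1 - t k i)
          - 2 * Real.sqrt (a k) *
            ∏ i, ((1 - (t k i) ^ ((1 / 2 : ℝ) + 1)) / ((1 / 2 : ℝ) + 1))) := by
          intro k
          have h := node_bound (t k) (ht k) (s := Real.sqrt (a k))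
          rw [Real.sq_sqrt (ha k)] at h
          exact h
        have h1 := Finset.sum_le_sum (s := Finset.univ) fun k (_ : k ∈ Finset.univ) => h0 k
        linarith
    _ = ∫ x in Icc (0 : Fin d → ℝ) 1, ((∏ i, x i) + ∑ k, (a k * ind (t k) x
        - 2 * Real.sqrt (a k) * (ind (t k) x * ∏ i, (x i) ^ (1 / 2 : ℝ)))) := by
        rw [integral_add integrable_prod hint1, integral_prod, integral_finsetSum]
        · congr 1
          refine Finset.sum_congr rfl fun k _ => ?_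
          rw [integral_sub ((integrable_ind (t k)).const_mul _)
            ((integrable_ind_rpow (t k) (by norm_num)).const_mul _), integral_const_mul,
            integral_const_mul, integral_ind (t k) (ht k),
            integral_ind_rpow (t k) (ht k) (by norm_num)]
        · intro k _
          exact ((integrable_ind (t k)).const_mul _).sub
            ((integrable_ind_rpow (t k) (by norm_num)).const_mul _)
    _ ≤ _ := by
        refine setIntegral_mono_on (integrable_prod.add hint1) hint2 measurableSet_Icc ?_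
        intro x hx
        exact pointwise a ha t hx

lemma ePlus_lower (N d : ℕ) : (1 / 2) ^ d * (1 - N * (13 / 14) ^ d) ≤ ePlus N d := by
  have hne : Nonempty {A : (Fin N → ℝ) × (Fin N → Fin d → ℝ) //
    (∀ k, 0 ≤ A.1 k) ∧ ∀ k i, A.2 k i ∈ Ico (0 : ℝ) 1} :=
    ⟨⟨(fun _ => 0, fun _ _ => 0), fun _ => le_rfl, fun _ _ => by simp⟩⟩
  exact le_ciInf fun A => err_lower A.1.1 A.2.1 A.1.2 A.2.2

lemma le_NPlus {C ε : ℝ} {d : ℕ} (h : ∀ N : ℕ, ePlus N d ≤ ε * (1 / 2) ^ d → C ≤ N) :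
    ENNReal.ofReal C ≤ (NPlus ε d : ENNReal) := by
  unfold NPlus
  by_cases hne : ∃ N : ℕ, ePlus N d ≤ ε * (1 / 2) ^ d
  · obtain ⟨N₀, hN₀⟩ := hne
    have h1 : (⌈C⌉₊ : ℕ∞) ≤ ⨅ (N : ℕ) (_ : ePlus N d ≤ ε * (1 / 2) ^ d), (N : ℕ∞) := by
      refine le_iInf₂ fun N hN => ?_
      exact_mod_cast Nat.ceil_le.2 (h N hN)
    have h2 : ENNReal.ofReal C ≤ ((⌈C⌉₊ : ℕ∞) : ENNReal) := by
      rw [ENat.toENNReal_coe]
      refine ENNReal.ofReal_le_of_le_toReal ?_
      rw [ENNReal.toReal_natCast]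
      exact Nat.le_ceil C
    exact h2.trans (ENat.toENNReal_le.2 h1)
  · have h3 : (⨅ (N : ℕ) (_ : ePlus N d ≤ ε * (1 / 2) ^ d), (N : ℕ∞)) = ⊤ := by
      refine iInf₂_eq_top.2 fun N hN => ?_
      exact absurd ⟨N, hN⟩ hne
    rw [h3]
    simp

lemma NPlus_lower (ε : ℝ) (d : ℕ) :
    ENNReal.ofReal ((1 - ε) * (14 / 13) ^ d) ≤ (NPlus ε d : ENNReal) := by
  refine le_NPlus fun N hN => ?_
  have h1 := (ePlus_lower N d).trans hN
  have h2 : (0 : ℝ) < (1 / 2) ^ d := by positivity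
  have h3 : 1 - N * (13 / 14 : ℝ) ^ d ≤ ε := by
    by_contra hcon
    push Not at hcon
    nlinarith
  have h4 : (14 / 13 : ℝ) ^ d * (13 / 14) ^ d = 1 := by
    rw [← mul_pow]; norm_num
  have h5 : (0 : ℝ) < (14 / 13) ^ d := by positivity
  have h6 : (1 - ε) * (14 / 13) ^ d ≤ (N * (13 / 14 : ℝ) ^ d) * (14 / 13) ^ d :=
    mul_le_mul_of_nonneg_right (by linarith) h5.le
  calc (1 - ε) * (14 / 13) ^ d ≤ (N * (13 / 14 : ℝ) ^ d) * (14 / 13) ^ d := h6
    _ = N * ((14 / 13 : ℝ) ^ d * (13 / 14) ^ d) := by ring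
    _ = N := by rw [h4, mul_one]

/-- **Positive answer to Q1**: integration on `F_{d,∞}` with non-negative quadrature formulas
suffers from the curse of dimensionality; more precisely `N^+(ε,d) ≥ (1 - ε) (14/13)^d` for all
`ε` and all `d`. -/
theorem result : SuffersFromCurse ∧
    ∀ ε : ℝ, ∀ d : ℕ, ENNReal.ofReal ((1 - ε) * (14 / 13) ^ d) ≤ (NPlus ε d : ENNReal) := by
  refine ⟨⟨1 / 2, 15 / 14, by norm_num, by norm_num, ?_⟩, NPlus_lower⟩
  refine Filter.Eventually.frequently ?_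
  have hlim := tendsto_pow_atTop_atTop_of_one_lt (show (1 : ℝ) < (14 / 13) / (15 / 14) by norm_num)
  filter_upwards [hlim.eventually_ge_atTop 2] with d hd
  refine le_trans (ENNReal.ofReal_le_ofReal ?_) (NPlus_lower (1 / 2) d)
  rw [div_pow, le_div_iff₀ (by positivity)] at hd
  linarith

end Pool.Agent.Results.MP_2335a4_an.NonnegCurse
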